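import Mathlib

/-! # Words of letters `z ↦ (z ^ μ + t) ^ (1 / μ)`

A letter is a pair `(μ, t)`; it is the translation by `t` in the coordinate `z ^ μ`. -/

namespace Pool.Agent.MP95e7W

/-- the letter `(μ, t)`: translation by `t` in the coordinate `z ^ μ` -/
noncomputable def lt (p : ℝ × ℝ) (z : ℝ) : ℝ := (z ^ p.1 + p.2) ^ (1 / p.1)

/-- the map of a word; the first letter acts first -/
noncomputable def wd : List (ℝ × ℝ) → ℝ → ℝ
  | [], z => z
  | p :: l, z => wd l (lt p z)

/-- the word can be applied at `z`: all intermediate values are positive -/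
def Ok : List (ℝ × ℝ) → ℝ → Prop
  | [], z => 0 < z
  | p :: l, z => 0 < z ∧ 0 < z ^ p.1 + p.2 ∧ Ok l (lt p z)

/-- all coefficients multiplied by `η` -/
def sc (η : ℝ) (l : List (ℝ × ℝ)) : List (ℝ × ℝ) := l.map fun p => (p.1, η * p.2)

@[simp] theorem wd_nil (z : ℝ) : wd [] z = z := rfl

@[simp] theorem wd_cons (p : ℝ × ℝ) (l : List (ℝ × ℝ)) (z : ℝ) : wd (p :: l) z = wd l (lt p z) := rfl

theorem wd_append (l l' : List (ℝ × ℝ)) (z : ℝ) : wd (l ++ l') z = wd l' (wd l z) := by
  induction l generalizing z with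
  | nil => rfl
  | cons p l ih => exact ih (lt p z)

theorem sc_nil (η : ℝ) : sc η [] = [] := rfl

theorem sc_cons (η : ℝ) (p : ℝ × ℝ) (l : List (ℝ × ℝ)) :
    sc η (p :: l) = (p.1, η * p.2) :: sc η l := rfl

theorem length_sc (η : ℝ) (l : List (ℝ × ℝ)) : (sc η l).length = l.length := by
  simp [sc]

end Pool.Agent.MP95e7W
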