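import Pool.Agent.Lib.MP_95e7ec_anW.Main

/-! # Words with many more fixed points than letters: final statements -/

namespace Pool.Agent.MP95e7W

open Filter Topology Asymptotics MP0775d3.Kron

/-- For `n ≥ n₀` there is a word with at most `n ^ (2 - γ)` letters, exponents as close to `1` as
desired, whose displacement has alternating signs at `n ^ 2` points. -/
theorem word_exists : ∃ γ : ℝ, 0 < γ ∧ γ < 1 ∧ ∃ n₀ : ℕ, ∀ n : ℕ, n₀ ≤ n → ∀ δ : ℝ, 0 < δ →
    ∃ (l : List (ℝ × ℝ)) (z : ℕ → ℝ), (l.length : ℝ) ≤ (n : ℝ) ^ (2 - γ) ∧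
      (∀ p ∈ l, |p.1 - 1| ≤ δ) ∧ (∀ i j, i < j → z i < z j) ∧
      ∀ i < n * n, 0 < z i ∧ Ok l (z i) ∧ 0 < (-1) ^ i * (wd l (z i) - z i) := by
  obtain ⟨γ₀, hγ₀, n₀, hdec⟩ := coeff_dec (1 / 2) (by norm_num)
  let g : ℝ := min γ₀ (1 / 2)
  have hg : 0 < g := lt_min hγ₀ (by norm_num)
  have hg2 : g ≤ 1 / 2 := min_le_right _ _
  obtain ⟨n₁, hn₁⟩ : ∃ n₁ : ℕ, ∀ n : ℕ, n₁ ≤ n → (8 : ℝ) ≤ (n : ℝ) ^ (g / 2) := by
    have h1 : Tendsto (fun n : ℕ => (n : ℝ) ^ (g / 2)) atTop atTop :=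
      (tendsto_rpow_atTop (by linarith)).comp tendsto_natCast_atTop_atTop
    exact eventually_atTop.1 (h1.eventually_ge_atTop 8)
  refine ⟨g / 2, by linarith, by linarith, max (max n₀ n₁) 1, ?_⟩
  intro n hn δ hδ
  have hn₀ : n₀ ≤ n := ((le_max_left _ _).trans (le_max_left _ _)).trans hn
  have hn₁' : n₁ ≤ n := ((le_max_right _ _).trans (le_max_left _ _)).trans hn
  have hn1 : 1 ≤ n := (le_max_right _ _).trans hn
  have hn1' : (1 : ℝ) ≤ n := by exact_mod_cast hn1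
  have hn0 : (0 : ℝ) < n := by linarith
  -- the exponents
  let δ' : ℝ := min δ (1 / 2)
  have hδ' : 0 < δ' := lt_min hδ (by norm_num)
  let κ : ℝ := δ' / (3 * n ^ 2)
  have hκ : 0 < κ := by positivity
  have hκ3 : 3 * (n : ℝ) ^ 2 * κ = δ' := by
    simp only [κ]
    field_simp
  let μ : Fin n → ℝ := fun i => 1 + (n - (i : ℕ)) * κ
  let ν : Fin n → ℝ := fun j => 1 + 2 * n ^ 2 * κ + n * (n - (j : ℕ)) * κ
  have hi0 : ∀ i : Fin n, (0 : ℝ) ≤ ((i : ℕ) : ℝ) := fun i => Nat.cast_nonneg _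
  have hi1 : ∀ i : Fin n, ((i : ℕ) : ℝ) + 1 ≤ n := fun i => by exact_mod_cast i.2
  have hnn : (n : ℝ) ≤ n ^ 2 := by nlinarith
  have hμ1 : ∀ i, 1 ≤ μ i := fun i => by
    have h1 := hi1 i
    have : 0 ≤ ((n : ℝ) - (i : ℕ)) * κ := mul_nonneg (by linarith) hκ.le
    simp only [μ]
    linarith
  have hμ2 : ∀ i, μ i ≤ 1 + δ' := fun i => by
    have h0 := hi0 i
    have : ((n : ℝ) - (i : ℕ)) * κ ≤ 3 * n ^ 2 * κ := by
      refine mul_le_mul_of_nonneg_right ?_ hκ.le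
      nlinarith
    simp only [μ]
    linarith
  have hν1 : ∀ i, 1 ≤ ν i := fun i => by
    have h1 := hi1 i
    have h2 : 0 ≤ (n : ℝ) * ((n : ℝ) - (i : ℕ)) * κ :=
      mul_nonneg (mul_nonneg hn0.le (by linarith)) hκ.le
    have h3 : 0 ≤ 2 * (n : ℝ) ^ 2 * κ := by positivity
    simp only [ν]
    linarith
  have hν2 : ∀ i, ν i ≤ 1 + δ' := fun i => by
    have h0 := hi0 i
    have : (n : ℝ) * ((n : ℝ) - (i : ℕ)) * κ ≤ n ^ 2 * κ := by
      refine mul_le_mul_of_nonneg_right ?_ hκ.le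
      nlinarith
    simp only [ν]
    linarith
  let P : ℝ → Prop := fun x => |x - 1| ≤ δ ∧ 0 < x
  have hP : ∀ x, 1 ≤ x → x ≤ 1 + δ' → P x := by
    intro x h1 h2
    refine ⟨?_, by linarith⟩
    rw [abs_of_nonneg (by linarith)]
    have : δ' ≤ δ := min_le_left _ _
    linarith
  -- the matrix
  have hD := hdec n hn₀ (fun i => -(-1) ^ (i : ℕ) * μ i) (fun j => (-1) ^ (n * (j : ℕ)) * ν j)
  obtain ⟨l, hlen, hlP, hA, hB⟩ := word_of_dec _ hD μ ν P (fun i => hP _ (hμ1 i) (hμ2 i))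
    (fun j => hP _ (hν1 j) (hν2 j))
  have hl : ∀ p ∈ l, 0 < p.1 := fun p hp => (hlP p hp).2
  -- the points
  let z : ℕ → ℝ := fun m => ((16 : ℝ) ^ (2 * m)) ^ (1 / κ)
  have hz : ∀ m, 0 < z m := fun m => Real.rpow_pos_of_pos (by positivity) _
  have hzκ : ∀ m, z m ^ κ = (16 : ℝ) ^ (2 * m) := fun m => by
    simp only [z]
    rw [← Real.rpow_mul (by positivity), one_div_mul_cancel hκ.ne', Real.rpow_one]
  have hzm : ∀ i j, i < j → z i < z j := by
    intro i j hij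
    refine Real.rpow_lt_rpow (by positivity) ?_ (by positivity)
    exact pow_lt_pow_right₀ (by norm_num) (by omega)
  -- the weights
  let w : ℕ → ℝ := fun k => κ * (3 * n ^ 2 - n + ((k % n : ℕ) : ℝ) - n * ((k / n : ℕ) : ℝ))
  have hwb : ∀ k < n * n, κ * (2 * n ^ 2) ≤ w k ∧ w k ≤ κ * (3 * n ^ 2) := by
    intro k hk
    have h1 : k % n < n := Nat.mod_lt _ (by omega)
    have h2 : k / n < n := Nat.div_lt_of_lt_mul hk
    have h1' : ((k % n : ℕ) : ℝ) + 1 ≤ n := by exact_mod_cast h1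
    have h2' : ((k / n : ℕ) : ℝ) + 1 ≤ n := by exact_mod_cast h2
    have h3 : (0 : ℝ) ≤ ((k % n : ℕ) : ℝ) := Nat.cast_nonneg _
    have h4 : (0 : ℝ) ≤ ((k / n : ℕ) : ℝ) := Nat.cast_nonneg _
    constructor
    · refine mul_le_mul_of_nonneg_left ?_ hκ.le
      nlinarith
    · refine mul_le_mul_of_nonneg_left ?_ hκ.le
      nlinarith
  have hBz : ∀ m < n * n, 0 < (-1) ^ m * B (z m) l := by
    intro m hm
    have hzm' := hz m
    rw [hB]
    have e1 : ∀ i j : Fin n, (Matrix.of fun i j : Fin n => (-(-1) ^ (i : ℕ) * μ i) *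
        (1 / 16 : ℝ) ^ (((i : ℕ) + n * j) ^ 2) * ((-1) ^ (n * (j : ℕ)) * ν j)) i j *
        (V (μ i) (z m) * V' (ν j) (z m) - V (ν j) (z m) * V' (μ i) (z m)) =
        z m ^ (-(1 + n * κ + 3 * n ^ 2 * κ)) * ((fun k : ℕ => (-1) ^ k *
          (1 / 16 : ℝ) ^ (k ^ 2) * w k * ((16 : ℝ) ^ (2 * m)) ^ k) ((i : ℕ) + n * j)) := by
      intro i j
      have hmu : μ i ≠ 0 := by
        have := hμ1 i
        positivity
      have hnu : ν j ≠ 0 := by
        have := hν1 j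
        positivity
      rw [bracket hzm' hmu hnu]
      have e2 : z m ^ (1 - μ i - ν j) = z m ^ (-(1 + n * κ + 3 * n ^ 2 * κ)) *
          ((16 : ℝ) ^ (2 * m)) ^ ((i : ℕ) + n * j) := by
        rw [← hzκ m, ← Real.rpow_natCast (z m ^ κ), ← Real.rpow_mul hzm'.le, ← Real.rpow_add hzm']
        congr 1
        simp only [μ, ν]
        push_cast
        ring
      have e3 : w ((i : ℕ) + n * j) = ν j - μ i := by
        simp only [w, μ, ν]
        rw [Nat.add_mul_mod_self_left, Nat.mod_eq_of_lt i.2, Nat.add_mul_div_left _ _ (by omega),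
          Nat.div_eq_of_lt i.2, zero_add]
        ring
      rw [e2]
      simp only [Matrix.of_apply]
      rw [e3, pow_add (-1 : ℝ)]
      field_simp
      ring
    simp_rw [e1]
    simp_rw [← Finset.mul_sum]
    rw [sum_pairs (n := n) (fun k : ℕ => (-1) ^ k *
          (1 / 16 : ℝ) ^ (k ^ 2) * w k * ((16 : ℝ) ^ (2 * m)) ^ k)]
    have h1 := sign_sum (n * n) m hm w (fun k hk => by
      have := (hwb k hk).1
      have h2 : 0 < κ * (2 * (n : ℝ) ^ 2) := by positivity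
      linarith) (fun k hk => by
      have h2 := (hwb k hk).2
      have h3 := (hwb m hm).1
      have h4 : 0 < κ * (n : ℝ) ^ 2 := by positivity
      linarith)
    have h2 : 0 < z m ^ (-(1 + n * κ + 3 * n ^ 2 * κ)) := Real.rpow_pos_of_pos hzm' _
    calc (0 : ℝ) < z m ^ (-(1 + n * κ + 3 * n ^ 2 * κ)) * ((-1) ^ m * ∑ k ∈ Finset.range (n * n),
          (-1) ^ k * (1 / 16 : ℝ) ^ (k ^ 2) * w k * ((16 : ℝ) ^ (2 * m)) ^ k) := mul_pos h2 h1
      _ = _ := by ring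
  -- choice of `η`
  have hev : ∀ᶠ η in 𝓝[≠] (0 : ℝ), ∀ m ∈ Finset.range (n * n),
      Ok (sc η l) (z m) ∧ 0 < (wd (sc η l) (z m) - z m) * B (z m) l := by
    rw [Finset.eventually_all]
    intro m hm
    have hm' := Finset.mem_range.1 hm
    have hB0 : B (z m) l ≠ 0 := by
      intro h
      have := hBz m hm'
      rw [h, mul_zero] at this
      exact lt_irrefl _ this
    have h1 := eventually_ok l hl (hz m) (jet_const (z m))
    have h2 := word_sign l hl (hz m) (hA _) hB0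
    rw [eventually_nhdsWithin_iff]
    filter_upwards [h1, h2] with η h3 h4 h5
    exact ⟨h3, h4 h5⟩
  obtain ⟨η, hη⟩ := hev.exists
  refine ⟨sc η l, z, ?_, ?_, hzm, ?_⟩
  · rw [length_sc]
    refine hlen.trans ?_
    have h1 : (n : ℝ) ^ (1 - γ₀) ≤ (n : ℝ) ^ (1 - g) := by
      refine Real.rpow_le_rpow_of_exponent_le hn1' ?_
      have : g ≤ γ₀ := min_le_left _ _
      linarith
    have h2 : (n : ℝ) ^ (1 / 2 : ℝ) ≤ (n : ℝ) ^ (1 - g) := by
      refine Real.rpow_le_rpow_of_exponent_le hn1' ?_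
      linarith
    have h3 : (n : ℝ) ^ (2 - g / 2) = n * ((n : ℝ) ^ (1 - g) * (n : ℝ) ^ (g / 2)) := by
      rw [← Real.rpow_add hn0]
      nth_rewrite 2 [← Real.rpow_one (n : ℝ)]
      rw [← Real.rpow_add hn0]
      congr 1
      ring
    rw [h3]
    have h4 := hn₁ n hn₁'
    have h5 : 0 < (n : ℝ) ^ (1 - g) := Real.rpow_pos_of_pos hn0 _
    calc 4 * (n : ℝ) * ((n : ℝ) ^ (1 - γ₀) + (n : ℝ) ^ (1 / 2 : ℝ))
        ≤ 4 * (n : ℝ) * ((n : ℝ) ^ (1 - g) + (n : ℝ) ^ (1 - g)) :=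
          mul_le_mul_of_nonneg_left (add_le_add h1 h2) (by positivity)
      _ = n * ((n : ℝ) ^ (1 - g) * 8) := by ring
      _ ≤ n * ((n : ℝ) ^ (1 - g) * (n : ℝ) ^ (g / 2)) :=
          mul_le_mul_of_nonneg_left (mul_le_mul_of_nonneg_left h4 h5.le) hn0.le
  · intro p hp
    rw [sc, List.mem_map] at hp
    obtain ⟨q, hq, rfl⟩ := hp
    exact (hlP q hq).1
  · intro m hm
    obtain ⟨h1, h2⟩ := hη m (Finset.mem_range.2 hm)
    refine ⟨hz m, h1, ?_⟩
    have h3 := hBz m hm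
    have h4 : 0 < ((-1) ^ m * (wd (sc η l) (z m) - z m)) * ((-1) ^ m * B (z m) l) := by
      have e : ((-1) ^ m * (wd (sc η l) (z m) - z m)) * ((-1) ^ m * B (z m) l) =
          ((-1) ^ m * (-1) ^ m) * ((wd (sc η l) (z m) - z m) * B (z m) l) := by ring
      rw [e, ← pow_add, ← two_mul, pow_mul, neg_one_sq, one_pow, one_mul]
      exact h2
    exact pos_of_mul_pos_left h4 h3.le

theorem lt_one_zero (z : ℝ) : lt (1, 0) z = z := by
  simp [lt]

theorem wd_replicate (k : ℕ) (z : ℝ) : wd (List.replicate k (1, 0)) z = z := by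
  induction k with
  | zero => rfl
  | succ k ih => rw [List.replicate_succ, wd_cons, lt_one_zero, ih]

theorem ok_replicate (k : ℕ) {z : ℝ} (hz : 0 < z) : Ok (List.replicate k (1, 0)) z := by
  induction k with
  | zero => exact hz
  | succ k ih =>
    rw [List.replicate_succ]
    refine ⟨hz, ?_, ?_⟩
    · simpa using hz
    · rw [lt_one_zero]
      exact ih

theorem Ok.append {l l' : List (ℝ × ℝ)} {z : ℝ} (h : Ok l z) (h' : Ok l' (wd l z)) :
    Ok (l ++ l') z := by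
  induction l generalizing z with
  | nil => exact h'
  | cons p l ih => exact ⟨h.1, h.2.1, ih h.2.2 h'⟩

theorem Ok.wd_pos {l : List (ℝ × ℝ)} {z : ℝ} (h : Ok l z) : 0 < wd l z := by
  induction l generalizing z with
  | nil => exact h
  | cons p l ih => exact ih h.2.2

/-- For all large `m` and all `δ > 0` there is a word with `m` letters, exponents within `δ` of
`1`, whose displacement has alternating signs at more than `m ^ (1 + c)` points. -/
theorem word_theorem : ∃ c : ℝ, 0 < c ∧ ∃ m₀ : ℕ, ∀ m : ℕ, m₀ ≤ m → ∀ δ : ℝ, 0 < δ →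
    ∃ (N : ℕ) (l : List (ℝ × ℝ)) (z : ℕ → ℝ), (m : ℝ) ^ (1 + c) ≤ N ∧ l.length = m ∧
      (∀ p ∈ l, |p.1 - 1| ≤ δ) ∧ (∀ i j, i < j → z i < z j) ∧
      ∀ i ≤ N, 0 < z i ∧ Ok l (z i) ∧ 0 < (-1) ^ i * (wd l (z i) - z i) := by
  obtain ⟨γ, hγ, hγ1, n₀, h⟩ := word_exists
  have hp : 0 < 1 / (2 - γ) := by
    apply one_div_pos.2
    linarith
  have hp' : Tendsto (fun m : ℕ => (m : ℝ) ^ (1 / (2 - γ))) atTop atTop :=
    (tendsto_rpow_atTop hp).comp tendsto_natCast_atTop_atTop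
  have hq' : Tendsto (fun m : ℕ => (m : ℝ) ^ (γ / 4)) atTop atTop :=
    (tendsto_rpow_atTop (by linarith)).comp tendsto_natCast_atTop_atTop
  obtain ⟨m₀, hm₀⟩ := eventually_atTop.1 ((hp'.eventually_ge_atTop ((n₀ : ℝ) + 4)).and
    (hq'.eventually_ge_atTop 4))
  refine ⟨γ / 4, by linarith, max m₀ 1, ?_⟩
  intro m hm δ hδ
  have hm1 : 1 ≤ m := (le_max_right _ _).trans hm
  obtain ⟨h1, h2⟩ := hm₀ m ((le_max_left _ _).trans hm)
  have hm1' : (1 : ℝ) ≤ m := by exact_mod_cast hm1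
  have hm0 : (0 : ℝ) < m := by linarith
  let x : ℝ := (m : ℝ) ^ (1 / (2 - γ))
  have hx4 : (n₀ : ℝ) + 4 ≤ x := h1
  have hx0 : 0 < x := by
    have : (0 : ℝ) ≤ n₀ := Nat.cast_nonneg _
    linarith
  let n : ℕ := ⌊x⌋₊
  have hn1 : (n : ℝ) ≤ x := Nat.floor_le hx0.le
  have hn2 : x < n + 1 := Nat.lt_floor_add_one x
  have hn₀ : n₀ ≤ n := by
    refine Nat.le_floor ?_
    linarith
  obtain ⟨l, z, hlen, hl, hz, hs⟩ := h n hn₀ δ hδ
  have hlm : l.length ≤ m := by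
    have h3 : (l.length : ℝ) ≤ m := by
      refine hlen.trans ?_
      calc (n : ℝ) ^ (2 - γ) ≤ x ^ (2 - γ) :=
            Real.rpow_le_rpow (Nat.cast_nonneg _) hn1 (by linarith)
        _ = m := by
            simp only [x]
            rw [← Real.rpow_mul hm0.le, one_div_mul_cancel (by linarith), Real.rpow_one]
    exact_mod_cast h3
  have hn0' : (0 : ℝ) ≤ n₀ := Nat.cast_nonneg _
  have hn3 : (3 : ℝ) < n := by linarith
  have hn3' : 3 < n := by exact_mod_cast hn3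
  have hnn : 1 ≤ n * n := by nlinarith
  refine ⟨n * n - 1, l ++ List.replicate (m - l.length) (1, 0), z, ?_, ?_, ?_, hz, ?_⟩
  · rw [Nat.cast_sub hnn]
    push_cast
    have h3 : x ^ 2 / 4 ≤ (n : ℝ) * n - 1 := by nlinarith
    refine le_trans ?_ h3
    have h4 : (m : ℝ) ^ (1 + γ / 2) ≤ x ^ 2 := by
      simp only [x]
      rw [← Real.rpow_natCast, ← Real.rpow_mul hm0.le]
      refine Real.rpow_le_rpow_of_exponent_le hm1' ?_
      push_cast
      rw [one_div, ← div_eq_inv_mul, le_div_iff₀ (by linarith)]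
      nlinarith
    have h5 : (m : ℝ) ^ (1 + γ / 2) = (m : ℝ) ^ (1 + γ / 4) * (m : ℝ) ^ (γ / 4) := by
      rw [← Real.rpow_add hm0]
      congr 1
      ring
    have h6 : 0 < (m : ℝ) ^ (1 + γ / 4) := Real.rpow_pos_of_pos hm0 _
    rw [h5] at h4
    nlinarith
  · rw [List.length_append, List.length_replicate]
    omega
  · intro p hp
    rw [List.mem_append] at hp
    rcases hp with hp | hp
    · exact hl p hp
    · rw [List.eq_of_mem_replicate hp]
      simpa using hδ.le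
  · intro i hi
    obtain ⟨h3, h4, h5⟩ := hs i (by omega)
    refine ⟨h3, h4.append (ok_replicate _ h4.wd_pos), ?_⟩
    rw [wd_append, wd_replicate]
    exact h5

end Pool.Agent.MP95e7W
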