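import Pool.Agent.Lib.MP_0775d3_lc.Kron.Final

/-! # The matrix `q ^ ((i + n j) ^ 2)` with `q = 1/16` is a sum of a matrix of low rank and a sparse one

This follows from the non-rigidity of Toeplitz matrices with a power saving (`MP_0775d3_lc`). -/

namespace Pool.Agent.MP95e7W

open MP0775d3.Kron

theorem dec_diag {n : ℕ} (T : Matrix (Fin n) (Fin n) ℝ) (d e : Fin n → ℝ) {r s : ℝ} (hs : 0 ≤ s)
    (h : Dec T r s) : Dec (Matrix.of fun i j => d i * T i j * e j) r s := by
  have hd : ∀ d : Fin n → ℝ, IsMono (Matrix.diagonal d) := by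
    intro d
    constructor
    · intro a b c hb hc
      have h1 : a = b := by
        by_contra h
        exact hb (Matrix.diagonal_apply_ne _ h)
      have h2 : a = c := by
        by_contra h
        exact hc (Matrix.diagonal_apply_ne _ h)
      exact h1.symm.trans h2
    · intro a b c hb hc
      have h1 : b = a := by
        by_contra h
        exact hb (Matrix.diagonal_apply_ne _ h)
      have h2 : c = a := by
        by_contra h
        exact hc (Matrix.diagonal_apply_ne _ h)
      exact h1.trans h2.symm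
  have h1 := (((hd d).dec).mul zero_le_one hs h).mul (by positivity) zero_le_one ((hd e).dec)
  have h2 : (Matrix.of fun i j => d i * T i j * e j) =
      Matrix.diagonal d * T * Matrix.diagonal e := by
    ext i j
    rw [Matrix.mul_diagonal, Matrix.diagonal_mul]
    rfl
  rw [h2]
  exact h1.mono (by linarith) (by linarith)

theorem coeff_dec (δ : ℝ) (hδ : 0 < δ) : ∃ γ : ℝ, 0 < γ ∧ ∃ n₀ : ℕ, ∀ n : ℕ, n₀ ≤ n →
    ∀ d e : Fin n → ℝ,
    Dec (Matrix.of fun i j : Fin n => d i * (1 / 16 : ℝ) ^ (((i : ℕ) + n * j) ^ 2) * e j)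
      ((n : ℝ) ^ (1 - γ)) ((n : ℝ) ^ δ) := by
  obtain ⟨γ, hγ, n₀, h⟩ := partA.{0, 0} δ hδ
  obtain ⟨n₁, hn₁⟩ : ∃ n₁ : ℕ, ∀ n : ℕ, n₁ ≤ n → 2 * (n : ℝ) ≤ (n : ℝ) ^ (1 + γ) := by
    have h1 : Filter.Tendsto (fun n : ℕ => (n : ℝ) ^ γ) Filter.atTop Filter.atTop :=
      (tendsto_rpow_atTop hγ).comp tendsto_natCast_atTop_atTop
    obtain ⟨n₁, hn₁⟩ := Filter.eventually_atTop.1 (h1.eventually_ge_atTop 2)
    refine ⟨max n₁ 1, fun n hn => ?_⟩
    have hn0 : (0 : ℝ) < n := by
      have : 1 ≤ n := (le_max_right _ _).trans hn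
      exact_mod_cast this
    rw [Real.rpow_add hn0, Real.rpow_one, mul_comm]
    exact mul_le_mul_of_nonneg_left (hn₁ n ((le_max_left _ _).trans hn)) hn0.le
  refine ⟨γ, hγ, max (max n₀ n₁) 1, ?_⟩
  intro n hn d e
  have hn₀ : n₀ ≤ n := ((le_max_left _ _).trans (le_max_left _ _)).trans hn
  have hn₁' : n₁ ≤ n := ((le_max_right _ _).trans (le_max_left _ _)).trans hn
  have hn1 : 1 ≤ n := (le_max_right _ _).trans hn
  let t : (Fin 1 → ℤ) → ℝ := fun v => (1 / 16 : ℝ) ^ ((n : ℤ) * (v 0 + (n - 1)) ^ 2)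
  let a : Fin n → Fin 1 → ℤ := fun i _ => (i : ℕ)
  let b : Fin n → Fin 1 → ℤ := fun j _ => (n : ℤ) - 1 - (j : ℕ)
  have hT := partB δ γ hδ n hn1 ℝ (fun A X _ _ _ _ => h n hn₀ ℝ A X) 1 (fun _ => n)
    (by simpa using hn₁ n hn₁') a b
    (by
      intro i i' hii
      have := congrFun hii 0
      simp only [a] at this
      exact Fin.ext (by exact_mod_cast this))
    (by
      intro i i' hii
      have := congrFun hii 0
      simp only [b] at this
      refine Fin.ext ?_
      omega)
    (by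
      intro i l
      simp only [a]
      have := i.2
      omega)
    (by
      intro i l
      simp only [b]
      have := i.2
      omega) t
  have h2 := dec_diag _ (fun i : Fin n => (1 / 16 : ℝ) ^ (((i : ℕ) : ℤ) ^ 2 - n * ((i : ℕ) : ℤ) ^ 2))
    (fun j : Fin n => (1 / 16 : ℝ) ^ ((n : ℤ) ^ 2 * ((j : ℕ) : ℤ) ^ 2 - n * ((j : ℕ) : ℤ) ^ 2))
    (by positivity) hT
  have h3 := dec_diag _ d e (by positivity) h2
  convert h3 using 1
  ext i j
  simp only [Matrix.of_apply, t, a, b, Pi.sub_apply]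
  rw [← zpow_add₀ (by norm_num), ← zpow_add₀ (by norm_num), ← zpow_natCast]
  congr 3
  push_cast
  ring

/-- A matrix of rank at most `r` is a sum of `r` products of a column and a row. -/
theorem exists_factor {n : ℕ} (R : Matrix (Fin n) (Fin n) ℝ) :
    ∃ (u v : Fin R.rank → Fin n → ℝ), ∀ i j, R i j = ∑ k, u k i * v k j := by
  let W := LinearMap.range R.mulVecLin
  let b : Module.Basis (Fin R.rank) ℝ W := Module.finBasis ℝ W
  have hmem : ∀ j, R.mulVecLin (Pi.single j 1) ∈ W := fun j => ⟨_, rfl⟩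
  refine ⟨fun k i => (b k : Fin n → ℝ) i, fun k j => b.repr ⟨_, hmem j⟩ k, ?_⟩
  intro i j
  have h1 := congrArg (fun w : W => (w : Fin n → ℝ) i) (b.sum_repr ⟨_, hmem j⟩)
  have h2 : R.mulVecLin (Pi.single j 1) i = R i j := by
    rw [Matrix.mulVecLin_apply, Matrix.mulVec_single_one]
    rfl
  rw [← h2]
  refine h1.symm.trans ?_
  rw [AddSubmonoidClass.coe_finsetSum, Finset.sum_apply]
  refine Finset.sum_congr rfl fun k _ => ?_
  rw [Submodule.coe_smul, Pi.smul_apply, smul_eq_mul, mul_comm]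

theorem sparse_count {n : ℕ} (S : Matrix (Fin n) (Fin n) ℝ) {s : ℝ} (hS : Sparse S s) :
    ((Finset.univ.filter fun p : Fin n × Fin n => S p.1 p.2 ≠ 0).card : ℝ) ≤ n * s := by
  classical
  have h1 : (Finset.univ.filter fun p : Fin n × Fin n => S p.1 p.2 ≠ 0).card =
      ∑ i : Fin n, (Finset.univ.filter fun j : Fin n => S i j ≠ 0).card := by
    rw [Finset.card_filter, Fintype.sum_prod_type]
    refine Finset.sum_congr rfl fun i _ => ?_
    rw [Finset.card_filter]
  rw [h1]
  push_cast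
  calc (∑ i : Fin n, ((Finset.univ.filter fun j : Fin n => S i j ≠ 0).card : ℝ))
      ≤ ∑ _i : Fin n, s := by
        refine Finset.sum_le_sum fun i _ => ?_
        have h2 : ((Finset.univ.filter (fun j => S i j ≠ 0)).card : ℝ) =
            (({j | S i j ≠ 0} : Set (Fin n)).ncard : ℝ) := by
          congr 1
          rw [← Set.ncard_coe_finset]
          congr 1
          ext y
          simp
        rw [h2]
        exact hS.1 i
    _ = n * s := by
        rw [Finset.sum_const, nsmul_eq_mul, Finset.card_univ, Fintype.card_fin]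

end Pool.Agent.MP95e7W
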