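import Pool.Agent.Lib.MP_95e7ec_anW.Defs

/-! # Second order expansion of a word in the size `η` of its coefficients -/

namespace Pool.Agent.MP95e7W

open Filter Topology Asymptotics

/-- `y η = z + a η + b η ^ 2 + o (η ^ 2)` -/
def Jet (y : ℝ → ℝ) (z a b : ℝ) : Prop :=
  (fun η => y η - (z + a * η + b * η ^ 2)) =o[𝓝 0] fun η => η ^ 2

/-- `φ (z + h) = φ z + c h + d h ^ 2 + o (h ^ 2)` -/
def Tay (φ : ℝ → ℝ) (z c d : ℝ) : Prop :=
  (fun h => φ (z + h) - (φ z + c * h + d * h ^ 2)) =o[𝓝 0] fun h => h ^ 2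

theorem Jet.congr {y y' : ℝ → ℝ} {z a b : ℝ} (h : Jet y z a b) (h' : y =ᶠ[𝓝 0] y') :
    Jet y' z a b := by
  refine h.congr' ?_ EventuallyEq.rfl
  filter_upwards [h'] with η hη
  rw [hη]

theorem pow_bound {p q : ℕ} (h : q ≤ p) : (fun η : ℝ => η ^ p) =O[𝓝 0] fun η => η ^ q := by
  refine IsBigO.of_bound 1 ?_
  have h1 : ∀ᶠ η : ℝ in 𝓝 0, |η| ≤ 1 := by
    have : Tendsto (fun η : ℝ => |η|) (𝓝 0) (𝓝 |0|) := continuous_abs.tendsto 0
    rw [abs_zero] at this
    exact (this.eventually (gt_mem_nhds one_pos)).mono fun η hη => le_of_lt hη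
  filter_upwards [h1] with η hη
  rw [one_mul, norm_pow, norm_pow, Real.norm_eq_abs]
  exact pow_le_pow_of_le_one (abs_nonneg η) hη h

theorem pow_small {p q : ℕ} (h : q < p) : (fun η : ℝ => η ^ p) =o[𝓝 0] fun η => η ^ q :=
  isLittleO_pow_pow h

/-- the increment of a jet is `O (η)` -/
theorem Jet.isBigO {y : ℝ → ℝ} {z a b : ℝ} (h : Jet y z a b) :
    (fun η => y η - z) =O[𝓝 0] fun η => η := by
  have h1 : (fun η : ℝ => y η - (z + a * η + b * η ^ 2)) =O[𝓝 0] fun η => η := by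
    have h2 := pow_bound (p := 2) (q := 1) (by norm_num)
    simp only [pow_one] at h2
    exact (IsLittleO.isBigO h).trans h2
  have h3 : (fun η : ℝ => a * η) =O[𝓝 0] fun η => η := isBigO_const_mul_self a _ _
  have h4 : (fun η : ℝ => b * η ^ 2) =O[𝓝 0] fun η => η := by
    have h2 := pow_bound (p := 2) (q := 1) (by norm_num)
    simp only [pow_one] at h2
    exact (isBigO_const_mul_self b _ _).trans h2
  have h5 := (h1.add h3).add h4
  refine h5.congr_left fun η => ?_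
  ring

theorem Jet.tendsto {y : ℝ → ℝ} {z a b : ℝ} (h : Jet y z a b) : Tendsto y (𝓝 0) (𝓝 z) := by
  have h1 := h.isBigO.trans_tendsto (tendsto_id (α := ℝ) (x := 𝓝 0))
  have h2 := h1.add_const z
  simpa using h2

/-- composition with a function which has a second order expansion -/
theorem Jet.comp {y φ : ℝ → ℝ} {z a b c d : ℝ} (h : Jet y z a b) (hφ : Tay φ z c d) :
    Jet (fun η => φ (y η)) (φ z) (c * a) (c * b + d * a ^ 2) := by
  have hy : Tendsto (fun η => y η - z) (𝓝 0) (𝓝 0) := by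
    have := h.tendsto.sub_const z
    rwa [sub_self] at this
  have h1 := hφ.comp_tendsto hy
  have h2 : (fun η => (y η - z) ^ 2) =O[𝓝 0] fun η => η ^ 2 := h.isBigO.pow 2
  have h3 : (fun η => φ (y η) - (φ z + c * (y η - z) + d * (y η - z) ^ 2)) =o[𝓝 0]
      fun η => η ^ 2 := by
    refine (h1.trans_isBigO h2).congr_left fun η => ?_
    simp only [Function.comp_apply]
    rw [add_sub_cancel]
  have h4 : (fun η => c * (y η - (z + a * η + b * η ^ 2))) =o[𝓝 0] fun η => η ^ 2 :=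
    h.const_mul_left c
  -- `(y - z)^2 - a^2 η^2 = (y - z - a η) (y - z + a η)`
  have h5 : (fun η => y η - z - a * η) =O[𝓝 0] fun η => η ^ 2 := by
    have h6 := (IsLittleO.isBigO h).add (isBigO_const_mul_self b (fun η : ℝ => η ^ 2) (𝓝 0))
    refine h6.congr_left fun η => ?_
    ring
  have h6 : (fun η => y η - z + a * η) =O[𝓝 0] fun η => η := by
    exact Jet.isBigO h |>.add (isBigO_const_mul_self a _ _)
  have h7 : (fun η => d * ((y η - z - a * η) * (y η - z + a * η))) =o[𝓝 0] fun η => η ^ 2 := by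
    refine IsLittleO.const_mul_left ?_ d
    refine (h5.mul h6).trans_isLittleO ?_
    have h8 := pow_small (p := 3) (q := 2) (by norm_num)
    refine h8.congr_left fun η => ?_
    ring
  have h8 := (h3.add h4).add h7
  refine h8.congr_left fun η => ?_
  ring

theorem Jet.add_mul {y : ℝ → ℝ} {z a b : ℝ} (h : Jet y z a b) (t : ℝ) :
    Jet (fun η => y η + η * t) z (a + t) b := by
  refine h.congr_left fun η => ?_
  ring

/-- second order expansion from two derivatives -/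
theorem tay_of_deriv {φ φ' : ℝ → ℝ} {z c : ℝ} (h1 : ∀ᶠ x in 𝓝 z, HasDerivAt φ (φ' x) x)
    (h2 : HasDerivAt φ' c z) : Tay φ z (φ' z) (c / 2) := by
  rw [Tay, isLittleO_iff]
  intro ε hε
  have h3 := h2.isLittleO
  rw [isLittleO_iff] at h3
  have h4 := h3 hε
  obtain ⟨r, hr, hr'⟩ := Metric.eventually_nhds_iff.1 (h1.and h4)
  filter_upwards [Metric.ball_mem_nhds (0 : ℝ) hr] with h hh
  rw [Metric.mem_ball, dist_zero_right, Real.norm_eq_abs] at hh
  let g : ℝ → ℝ := fun s => φ (z + s) - (φ z + φ' z * s + c / 2 * s ^ 2)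
  have hg : ∀ s, |s| < r → HasDerivAt g (φ' (z + s) - φ' z - c * s) s := by
    intro s hs
    have h5 : HasDerivAt (fun s => φ (z + s)) (φ' (z + s)) s := by
      have h6 := (hr' (y := z + s) (by rw [dist_eq_norm]; simpa using hs)).1
      simpa using h6.comp_const_add z s
    have h6 : HasDerivAt (fun s : ℝ => φ z + φ' z * s + c / 2 * s ^ 2) (φ' z + c * s) s := by
      have h7 := ((hasDerivAt_id s).const_mul (φ' z)).const_add (φ z)
      have h8 := ((hasDerivAt_pow 2 s).const_mul (c / 2))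
      refine (h7.add h8).congr_deriv ?_
      simp
      ring
    refine (h5.sub h6).congr_deriv ?_
    ring
  have hb : ∀ s, |s| < r → |φ' (z + s) - φ' z - c * s| ≤ ε * |s| := by
    intro s hs
    have h5 := (hr' (y := z + s) (by rw [dist_eq_norm]; simpa using hs)).2
    rw [smul_eq_mul] at h5
    have h6 : z + s - z = s := by ring
    rw [h6, Real.norm_eq_abs, Real.norm_eq_abs] at h5
    rwa [mul_comm c s]
  have hmv : ∀ s ∈ Set.uIcc 0 h, ‖φ' (z + s) - φ' z - c * s‖ ≤ ε * |h| := by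
    intro s hs
    have h5 : |s| ≤ |h| := by
      rcases Set.mem_uIcc.1 hs with h' | h'
      · rw [abs_of_nonneg h'.1, abs_of_nonneg (h'.1.trans h'.2)]
        exact h'.2
      · rw [abs_of_nonpos h'.2, abs_of_nonpos (h'.1.trans h'.2)]
        linarith [h'.1]
    rw [Real.norm_eq_abs]
    exact (hb s (h5.trans_lt hh)).trans (mul_le_mul_of_nonneg_left h5 hε.le)
  have hlip := Convex.norm_image_sub_le_of_norm_hasDerivWithin_le (f := g)
    (f' := fun s => φ' (z + s) - φ' z - c * s) (s := Set.uIcc 0 h) (x := 0) (y := h) (C := ε * |h|)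
    (fun s hs => by
      have h5 : |s| ≤ |h| := by
        rcases Set.mem_uIcc.1 hs with h' | h'
        · rw [abs_of_nonneg h'.1, abs_of_nonneg (h'.1.trans h'.2)]
          exact h'.2
        · rw [abs_of_nonpos h'.2, abs_of_nonpos (h'.1.trans h'.2)]
          linarith [h'.1]
      exact (hg s (h5.trans_lt hh)).hasDerivWithinAt) hmv (convex_uIcc 0 h) Set.left_mem_uIcc
    Set.right_mem_uIcc
  have hg0 : g 0 = 0 := by
    simp only [g]
    simp
  rw [hg0, sub_zero, sub_zero] at hlip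
  rw [norm_pow]
  refine hlip.trans (le_of_eq ?_)
  rw [Real.norm_eq_abs]
  ring

theorem tay_rpow (μ : ℝ) {z : ℝ} (hz : 0 < z) :
    Tay (fun x => x ^ μ) z (μ * z ^ (μ - 1)) (μ * (μ - 1) * z ^ (μ - 2) / 2) := by
  refine tay_of_deriv (φ' := fun x => μ * x ^ (μ - 1)) ?_ ?_
  · filter_upwards [lt_mem_nhds hz] with x hx
    exact Real.hasDerivAt_rpow_const (Or.inl hx.ne')
  · have h1 := (Real.hasDerivAt_rpow_const (x := z) (p := μ - 1) (Or.inl hz.ne')).const_mul μ
    refine h1.congr_deriv ?_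
    rw [show μ - 1 - 1 = μ - 2 by ring]
    ring

/-- `V μ z = z ^ (1 - μ) / μ` -/
noncomputable def V (μ z : ℝ) : ℝ := z ^ (1 - μ) / μ

/-- the derivative of `V μ` -/
noncomputable def V' (μ z : ℝ) : ℝ := (1 - μ) * z ^ (-μ) / μ

/-- one letter -/
theorem Jet.letter {y : ℝ → ℝ} {z a b : ℝ} (h : Jet y z a b) (hz : 0 < z) (μ t : ℝ)
    (hμ : 0 < μ) : Jet (fun η => lt (μ, η * t) (y η)) z (a + t * V μ z)
      (b + t * V' μ z * a + t ^ 2 * V μ z * V' μ z / 2) := by
  have h1 := (h.comp (tay_rpow μ hz)).add_mul t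
  have hw : (0 : ℝ) < z ^ μ := Real.rpow_pos_of_pos hz μ
  have h2 := h1.comp (tay_rpow (1 / μ) hw)
  have e0 : (z ^ μ) ^ (1 / μ) = z := by
    rw [← Real.rpow_mul hz.le, mul_one_div_cancel hμ.ne', Real.rpow_one]
  have e1 : (z ^ μ) ^ (1 / μ - 1) = z ^ (1 - μ) := by
    rw [← Real.rpow_mul hz.le]
    congr 1
    field_simp
  have e2 : (z ^ μ) ^ (1 / μ - 2) = z ^ (1 - μ) * z ^ (-μ) := by
    rw [← Real.rpow_mul hz.le, ← Real.rpow_add hz]
    congr 1
    field_simp
    ring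
  have e3 : z ^ (1 - μ) * z ^ (μ - 1) = 1 := by
    rw [← Real.rpow_add hz, show 1 - μ + (μ - 1) = 0 by ring, Real.rpow_zero]
  have e4 : z ^ (μ - 2) = z ^ (μ - 1) * z ^ (-μ) * z ^ (μ - 1) := by
    rw [← Real.rpow_add hz, ← Real.rpow_add hz]
    congr 1
    ring
  rw [e0, e1, e2, e4] at h2
  have E1 : a + t * V μ z = 1 / μ * z ^ (1 - μ) * (μ * z ^ (μ - 1) * a + t) := by
    rw [V]
    have : 1 / μ * z ^ (1 - μ) * (μ * z ^ (μ - 1) * a + t) =
        (1 / μ * μ) * (z ^ (1 - μ) * z ^ (μ - 1)) * a + t * (z ^ (1 - μ) / μ) := by ring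
    rw [this, e3, one_div_mul_cancel hμ.ne']
    ring
  have E2 : b + t * V' μ z * a + t ^ 2 * V μ z * V' μ z / 2 =
      1 / μ * z ^ (1 - μ) * (μ * z ^ (μ - 1) * b +
        μ * (μ - 1) * (z ^ (μ - 1) * z ^ (-μ) * z ^ (μ - 1)) / 2 * a ^ 2) +
      1 / μ * (1 / μ - 1) * (z ^ (1 - μ) * z ^ (-μ)) / 2 * (μ * z ^ (μ - 1) * a + t) ^ 2 := by
    rw [V, V']
    have h3 : ∀ A B C : ℝ, A * B = 1 →
        b + t * ((1 - μ) * C / μ) * a + t ^ 2 * (A / μ) * ((1 - μ) * C / μ) / 2 =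
        1 / μ * A * (μ * B * b + μ * (μ - 1) * (B * C * B) / 2 * a ^ 2) +
          1 / μ * (1 / μ - 1) * (A * C) / 2 * (μ * B * a + t) ^ 2 := by
      intro A B C hAB
      have hA : A ≠ 0 := left_ne_zero_of_mul_eq_one hAB
      have hB : B = 1 / A := by
        rw [eq_div_iff hA, mul_comm]
        exact hAB
      rw [hB]
      field_simp
      ring
    exact h3 _ _ _ e3
  rw [E1, E2]
  exact h2

end Pool.Agent.MP95e7W
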