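import Mathlib

/-! # Sign of a weighted theta sum: the term `m` dominates at `x = 16 ^ (2 m)` -/

namespace Pool.Agent.MP95e7W

theorem low_sum (m : ℕ) : ∑ k ∈ Finset.range m, (1 / 4 : ℝ) ^ (m - k) = (1 - (1 / 4) ^ m) / 3 := by
  induction m with
  | zero => simp
  | succ m ih =>
    rw [Finset.sum_range_succ]
    have h : ∑ k ∈ Finset.range m, (1 / 4 : ℝ) ^ (m + 1 - k) =
        (1 / 4) * ∑ k ∈ Finset.range m, (1 / 4 : ℝ) ^ (m - k) := by
      rw [Finset.mul_sum]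
      refine Finset.sum_congr rfl fun k hk => ?_
      have hk' := Finset.mem_range.1 hk
      rw [show m + 1 - k = (m - k) + 1 by omega, pow_succ]
      ring
    rw [h, ih, show m + 1 - m = 1 by omega, pow_succ]
    ring

theorem high_sum (l : ℕ) : ∑ k ∈ Finset.range l, (1 / 4 : ℝ) ^ (k + 1) = (1 - (1 / 4) ^ l) / 3 := by
  induction l with
  | zero => simp
  | succ l ih =>
    rw [Finset.sum_range_succ, ih, pow_succ]
    ring

theorem term_le (k m : ℕ) (e : ℕ) (he : ((k : ℤ) - m) = e ∨ ((k : ℤ) - m) = -e) :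
    (1 / 4 : ℝ) ^ (((k : ℤ) - m) ^ 2) ≤ (1 / 4) ^ e := by
  have h : ((k : ℤ) - m) ^ 2 = ((e ^ 2 : ℕ) : ℤ) := by
    rcases he with h | h <;> rw [h] <;> push_cast <;> ring
  rw [h, zpow_natCast]
  exact pow_le_pow_of_le_one (by norm_num) (by norm_num) (Nat.le_self_pow two_ne_zero e)

theorem tail_lt (D m : ℕ) (hm : m < D) :
    ∑ k ∈ (Finset.range D).erase m, (1 / 4 : ℝ) ^ (((k : ℤ) - m) ^ 2) < 1 := by
  have h1 : (Finset.range D).erase m = Finset.range m ∪ Finset.Ico (m + 1) D := by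
    ext k
    simp only [Finset.mem_erase, Finset.mem_range, Finset.mem_union, Finset.mem_Ico]
    omega
  have h2 : Disjoint (Finset.range m) (Finset.Ico (m + 1) D) := by
    rw [Finset.disjoint_left]
    intro k hk hk'
    rw [Finset.mem_range] at hk
    rw [Finset.mem_Ico] at hk'
    omega
  rw [h1, Finset.sum_union h2]
  have h3 : ∑ k ∈ Finset.range m, (1 / 4 : ℝ) ^ (((k : ℤ) - m) ^ 2) ≤ 1 / 3 := by
    calc ∑ k ∈ Finset.range m, (1 / 4 : ℝ) ^ (((k : ℤ) - m) ^ 2)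
        ≤ ∑ k ∈ Finset.range m, (1 / 4 : ℝ) ^ (m - k) := by
          refine Finset.sum_le_sum fun k hk => term_le k m (m - k) (Or.inr ?_)
          have := Finset.mem_range.1 hk
          omega
      _ = (1 - (1 / 4) ^ m) / 3 := low_sum m
      _ ≤ 1 / 3 := by
          have : (0 : ℝ) ≤ (1 / 4) ^ m := by positivity
          linarith
  have h4 : ∑ k ∈ Finset.Ico (m + 1) D, (1 / 4 : ℝ) ^ (((k : ℤ) - m) ^ 2) ≤ 1 / 3 := by
    rw [Finset.sum_Ico_eq_sum_range]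
    calc ∑ k ∈ Finset.range (D - (m + 1)), (1 / 4 : ℝ) ^ ((((m + 1 + k : ℕ) : ℤ) - m) ^ 2)
        ≤ ∑ k ∈ Finset.range (D - (m + 1)), (1 / 4 : ℝ) ^ (k + 1) := by
          refine Finset.sum_le_sum fun k _ => term_le (m + 1 + k) m (k + 1) (Or.inl ?_)
          push_cast
          ring
      _ = (1 - (1 / 4) ^ (D - (m + 1))) / 3 := high_sum _
      _ ≤ 1 / 3 := by
          have : (0 : ℝ) ≤ (1 / 4) ^ (D - (m + 1)) := by positivity
          linarith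
  linarith

theorem tail16 (D m : ℕ) (hm : m < D) :
    ∑ k ∈ (Finset.range D).erase m, (1 / 16 : ℝ) ^ (((k : ℤ) - m) ^ 2) < 1 / 4 := by
  have h1 : ∀ k ∈ (Finset.range D).erase m, (1 / 16 : ℝ) ^ (((k : ℤ) - m) ^ 2) ≤
      1 / 4 * (1 / 4 : ℝ) ^ (((k : ℤ) - m) ^ 2) := by
    intro k hk
    have hk' := (Finset.mem_erase.1 hk).1
    have e1 : (1 / 16 : ℝ) ^ (((k : ℤ) - m) ^ 2) =
        (1 / 4 : ℝ) ^ (((k : ℤ) - m) ^ 2) * (1 / 4 : ℝ) ^ (((k : ℤ) - m) ^ 2) := by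
      rw [← mul_zpow]
      norm_num
    rw [e1]
    refine mul_le_mul_of_nonneg_right ?_ (by positivity)
    obtain ⟨e, he⟩ : ∃ e : ℕ, ((k : ℤ) - m) ^ 2 = ((e + 1 : ℕ) : ℤ) := by
      have h2 : 0 < ((k : ℤ) - m) ^ 2 := by
        have : (k : ℤ) - m ≠ 0 := by omega
        positivity
      refine ⟨(((k : ℤ) - m) ^ 2 - 1).toNat, ?_⟩
      push_cast
      rw [Int.toNat_of_nonneg (by omega)]
      ring
    rw [he, zpow_natCast, pow_succ]
    have h3 : (1 / 4 : ℝ) ^ e ≤ 1 := pow_le_one₀ (by norm_num) (by norm_num)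
    nlinarith
  refine (Finset.sum_le_sum h1).trans_lt ?_
  rw [← Finset.mul_sum]
  have := tail_lt D m hm
  linarith

/-- If the weights `w k` differ by a factor at most `2` then the sum
`∑ (-1)^k (1/16)^(k^2) w k x^k` has the sign `(-1)^m` at `x = 16 ^ (2 m)`. -/
theorem sign_sum (D m : ℕ) (hm : m < D) (w : ℕ → ℝ) (hw : ∀ k < D, 0 < w k)
    (hw2 : ∀ k < D, w k ≤ 2 * w m) :
    0 < (-1) ^ m * ∑ k ∈ Finset.range D,
      (-1) ^ k * (1 / 16 : ℝ) ^ (k ^ 2) * w k * ((16 : ℝ) ^ (2 * m)) ^ k := by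
  have h1 : ∀ k : ℕ, (-1) ^ k * (1 / 16 : ℝ) ^ (k ^ 2) * w k * ((16 : ℝ) ^ (2 * m)) ^ k =
      (-1) ^ k * ((16 : ℝ) ^ (m ^ 2) * (1 / 16 : ℝ) ^ (((k : ℤ) - m) ^ 2) * w k) := by
    intro k
    have e : (1 / 16 : ℝ) ^ (k ^ 2) * ((16 : ℝ) ^ (2 * m)) ^ k =
        (16 : ℝ) ^ (m ^ 2) * (1 / 16 : ℝ) ^ (((k : ℤ) - m) ^ 2) := by
      rw [← pow_mul, one_div, inv_zpow', inv_pow, ← zpow_natCast, ← zpow_natCast, ← zpow_natCast,
        ← zpow_neg, ← zpow_add₀ (by norm_num), ← zpow_add₀ (by norm_num)]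
      congr 1
      push_cast
      ring
    calc (-1) ^ k * (1 / 16 : ℝ) ^ (k ^ 2) * w k * ((16 : ℝ) ^ (2 * m)) ^ k
        = (-1) ^ k * (((1 / 16 : ℝ) ^ (k ^ 2) * ((16 : ℝ) ^ (2 * m)) ^ k) * w k) := by ring
      _ = _ := by rw [e]
  rw [← Finset.add_sum_erase _ _ (Finset.mem_range.2 hm)]
  simp_rw [h1]
  have h4 : (0 : ℝ) < 16 ^ (m ^ 2) := by positivity
  have hwm := hw m hm
  have h2 : |∑ k ∈ (Finset.range D).erase m,
      (-1) ^ k * ((16 : ℝ) ^ (m ^ 2) * (1 / 16 : ℝ) ^ (((k : ℤ) - m) ^ 2) * w k)| <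
      16 ^ (m ^ 2) * w m := by
    calc |∑ k ∈ (Finset.range D).erase m,
        (-1) ^ k * ((16 : ℝ) ^ (m ^ 2) * (1 / 16 : ℝ) ^ (((k : ℤ) - m) ^ 2) * w k)|
        ≤ ∑ k ∈ (Finset.range D).erase m,
          |(-1) ^ k * ((16 : ℝ) ^ (m ^ 2) * (1 / 16 : ℝ) ^ (((k : ℤ) - m) ^ 2) * w k)| :=
          Finset.abs_sum_le_sum_abs _ _
      _ ≤ ∑ k ∈ (Finset.range D).erase m,
          (16 : ℝ) ^ (m ^ 2) * (2 * w m) * (1 / 16 : ℝ) ^ (((k : ℤ) - m) ^ 2) := by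
          refine Finset.sum_le_sum fun k hk => ?_
          have hk' := Finset.mem_range.1 (Finset.mem_of_mem_erase hk)
          have h5 := hw k hk'
          have h6 := hw2 k hk'
          rw [abs_mul, abs_pow, abs_neg, abs_one, one_pow, one_mul, abs_of_nonneg (by positivity)]
          have h7 : (0 : ℝ) ≤ (16 : ℝ) ^ (m ^ 2) * (1 / 16 : ℝ) ^ (((k : ℤ) - m) ^ 2) := by
            positivity
          calc (16 : ℝ) ^ (m ^ 2) * (1 / 16 : ℝ) ^ (((k : ℤ) - m) ^ 2) * w k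
              ≤ (16 : ℝ) ^ (m ^ 2) * (1 / 16 : ℝ) ^ (((k : ℤ) - m) ^ 2) * (2 * w m) :=
                mul_le_mul_of_nonneg_left h6 h7
            _ = _ := by ring
      _ = (16 : ℝ) ^ (m ^ 2) * (2 * w m) *
          ∑ k ∈ (Finset.range D).erase m, (1 / 16 : ℝ) ^ (((k : ℤ) - m) ^ 2) := by
          rw [Finset.mul_sum]
      _ < (16 : ℝ) ^ (m ^ 2) * (2 * w m) * (1 / 4) :=
          mul_lt_mul_of_pos_left (tail16 D m hm) (by positivity)
      _ ≤ 16 ^ (m ^ 2) * w m := by nlinarith [mul_pos h4 hwm]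
  have h3 : (-1 : ℝ) ^ m * ((-1) ^ m * ((16 : ℝ) ^ (m ^ 2) *
      (1 / 16 : ℝ) ^ (((m : ℤ) - m) ^ 2) * w m)) = 16 ^ (m ^ 2) * w m := by
    rw [← mul_assoc, ← pow_add, ← two_mul, pow_mul, neg_one_sq, one_pow, one_mul, sub_self]
    simp
  rw [mul_add, h3]
  have h5 : |(-1 : ℝ) ^ m * ∑ k ∈ (Finset.range D).erase m,
      (-1) ^ k * ((16 : ℝ) ^ (m ^ 2) * (1 / 16 : ℝ) ^ (((k : ℤ) - m) ^ 2) * w k)| <
      16 ^ (m ^ 2) * w m := by
    rw [abs_mul, abs_pow, abs_neg, abs_one, one_pow, one_mul]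
    exact h2
  have h6 := (abs_lt.1 h5).1
  linarith

end Pool.Agent.MP95e7W
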