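import Pool.Agent.Lib.MP_95e7ec_anW.Word
import Pool.Agent.Lib.MP_95e7ec_anW.Sign
import Pool.Agent.Lib.MP_95e7ec_anW.Hankel

/-! # Words with more fixed points than letters -/

namespace Pool.Agent.MP95e7W

open Filter Topology Asymptotics MP0775d3.Kron

/-- the commutators belonging to a sum of `r` products of a column and a row -/
noncomputable def listR {n r : ℕ} (μ ν : Fin n → ℝ) (u v : Fin r → Fin n → ℝ) :
    List (List (ℝ × ℝ) × List (ℝ × ℝ)) :=
  List.ofFn fun k => (List.ofFn fun i => (μ i, u k i), List.ofFn fun j => (ν j, v k j))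

open Classical in
/-- the commutators belonging to a sparse matrix -/
noncomputable def listS {n : ℕ} (μ ν : Fin n → ℝ) (S : Fin n → Fin n → ℝ) :
    List (List (ℝ × ℝ) × List (ℝ × ℝ)) :=
  (Finset.univ.filter fun p : Fin n × Fin n => S p.1 p.2 ≠ 0).toList.map
    fun p => ([(μ p.1, S p.1 p.2)], [(ν p.2, 1)])

theorem B_listR (z : ℝ) {n r : ℕ} (μ ν : Fin n → ℝ) (u v : Fin r → Fin n → ℝ) :
    B z (comms (listR μ ν u v)) = ∑ i, ∑ j, (∑ k, u k i * v k j) *
      (V (μ i) z * V' (ν j) z - V (ν j) z * V' (μ i) z) := by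
  rw [B_comms, listR, List.map_ofFn, List.sum_ofFn]
  simp only [Function.comp_apply, A_ofFn, A'_ofFn]
  have h : ∀ k : Fin r, (∑ i, u k i * V (μ i) z) * (∑ j, v k j * V' (ν j) z) -
      (∑ j, v k j * V (ν j) z) * (∑ i, u k i * V' (μ i) z) =
      ∑ i, ∑ j, u k i * v k j * (V (μ i) z * V' (ν j) z - V (ν j) z * V' (μ i) z) := by
    intro k
    rw [Finset.sum_mul_sum, mul_comm (∑ j, v k j * V (ν j) z), Finset.sum_mul_sum,
      ← Finset.sum_sub_distrib]
    refine Finset.sum_congr rfl fun i _ => ?_
    rw [← Finset.sum_sub_distrib]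
    refine Finset.sum_congr rfl fun j _ => ?_
    ring
  simp_rw [h]
  rw [Finset.sum_comm]
  refine Finset.sum_congr rfl fun i _ => ?_
  rw [Finset.sum_comm]
  refine Finset.sum_congr rfl fun j _ => ?_
  rw [Finset.sum_mul]

theorem B_listS (z : ℝ) {n : ℕ} (μ ν : Fin n → ℝ) (S : Fin n → Fin n → ℝ) :
    B z (comms (listS μ ν S)) = ∑ i, ∑ j, S i j *
      (V (μ i) z * V' (ν j) z - V (ν j) z * V' (μ i) z) := by
  classical
  rw [B_comms, listS, List.map_map]
  simp only [Function.comp_def, A, A', add_zero, one_mul]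
  rw [Finset.sum_map_toList, ← Finset.univ_product_univ, Finset.sum_filter, Finset.sum_product]
  refine Finset.sum_congr rfl fun i _ => Finset.sum_congr rfl fun j _ => ?_
  by_cases h : S i j = 0
  · simp [h]
  · rw [if_pos h]
    ring

theorem length_listR {n r : ℕ} (μ ν : Fin n → ℝ) (u v : Fin r → Fin n → ℝ) :
    (comms (listR μ ν u v)).length = r * (4 * n) := by
  rw [length_comms, listR, List.map_ofFn, List.sum_ofFn]
  simp only [Function.comp_apply, List.length_ofFn]
  rw [Finset.sum_const, Finset.card_univ, Fintype.card_fin, smul_eq_mul]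
  ring

open Classical in
theorem length_listS {n : ℕ} (μ ν : Fin n → ℝ) (S : Fin n → Fin n → ℝ) :
    (comms (listS μ ν S)).length =
      4 * (Finset.univ.filter fun p : Fin n × Fin n => S p.1 p.2 ≠ 0).card := by
  rw [length_comms, listS, List.map_map]
  simp only [Function.comp_def, List.length_cons, List.length_nil]
  rw [Finset.sum_map_toList, Finset.sum_const, smul_eq_mul]
  ring

theorem comms_append (L L' : List (List (ℝ × ℝ) × List (ℝ × ℝ))) :
    comms (L ++ L') = comms L ++ comms L' := by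
  simp [comms]

/-- A word of commutators for a matrix of the form low rank plus sparse. -/
theorem word_of_dec {n : ℕ} (D : Matrix (Fin n) (Fin n) ℝ) {r s : ℝ} (h : Dec D r s)
    (μ ν : Fin n → ℝ) (P : ℝ → Prop) (hμ : ∀ i, P (μ i)) (hν : ∀ j, P (ν j)) :
    ∃ l : List (ℝ × ℝ), (l.length : ℝ) ≤ 4 * n * (r + s) ∧ (∀ p ∈ l, P p.1) ∧
      (∀ z, A z l = 0) ∧ ∀ z, B z l = ∑ i, ∑ j, D i j *
        (V (μ i) z * V' (ν j) z - V (ν j) z * V' (μ i) z) := by
  classical
  obtain ⟨R, S, hD, hR, hS⟩ := h
  obtain ⟨u, v, huv⟩ := exists_factor R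
  refine ⟨comms (listR μ ν u v ++ listS μ ν S), ?_, ?_, fun z => A_comms z _, ?_⟩
  · rw [comms_append, List.length_append, length_listR, length_listS]
    have h1 := sparse_count S hS
    push_cast
    have h2 : (R.rank : ℝ) * (4 * n) ≤ r * (4 * n) := by
      refine mul_le_mul_of_nonneg_right hR (by positivity)
    nlinarith
  · refine mem_comms fun q hq => ?_
    rw [List.mem_append] at hq
    rcases hq with hq | hq
    · rw [listR, List.mem_ofFn] at hq
      obtain ⟨k, rfl⟩ := hq
      constructor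
      · intro p hp
        obtain ⟨i, rfl⟩ := (List.mem_ofFn' _ _).1 hp
        exact hμ i
      · intro p hp
        obtain ⟨i, rfl⟩ := (List.mem_ofFn' _ _).1 hp
        exact hν i
    · rw [listS, List.mem_map] at hq
      obtain ⟨p, _, rfl⟩ := hq
      constructor
      · intro p' hp'
        rw [List.mem_singleton] at hp'
        rw [hp']
        exact hμ _
      · intro p' hp'
        rw [List.mem_singleton] at hp'
        rw [hp']
        exact hν _
  · intro z
    rw [comms_append, B_append, A_comms, zero_mul, add_zero, B_listR, B_listS,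
      ← Finset.sum_add_distrib]
    refine Finset.sum_congr rfl fun i _ => ?_
    rw [← Finset.sum_add_distrib]
    refine Finset.sum_congr rfl fun j _ => ?_
    rw [hD, Matrix.add_apply, huv i j]
    ring

/-- sum over `i + n j` -/
theorem sum_pairs {n : ℕ} (f : ℕ → ℝ) :
    ∑ i : Fin n, ∑ j : Fin n, f ((i : ℕ) + n * j) = ∑ k ∈ Finset.range (n * n), f k := by
  rw [Finset.sum_comm, ← Fin.sum_univ_eq_sum_range, ← finProdFinEquiv.sum_comp,
    Fintype.sum_prod_type]
  rfl

end Pool.Agent.MP95e7W
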