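import Pool.Agent.Lib.MP_95e7ec_anW.Jet

/-! # The second order expansion of words, commutators -/

namespace Pool.Agent.MP95e7W

open Filter Topology Asymptotics

/-- first order coefficient -/
noncomputable def A (z : ℝ) : List (ℝ × ℝ) → ℝ
  | [] => 0
  | p :: l => p.2 * V p.1 z + A z l

/-- derivative of the first order coefficient -/
noncomputable def A' (z : ℝ) : List (ℝ × ℝ) → ℝ
  | [] => 0
  | p :: l => p.2 * V' p.1 z + A' z l

/-- second order coefficient -/
noncomputable def B (z : ℝ) : List (ℝ × ℝ) → ℝ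
  | [] => 0
  | p :: l => p.2 ^ 2 * V p.1 z * V' p.1 z / 2 + p.2 * V p.1 z * A' z l + B z l

theorem Jet.word (l : List (ℝ × ℝ)) (hl : ∀ p ∈ l, 0 < p.1) {z : ℝ} (hz : 0 < z) {y : ℝ → ℝ}
    {a b : ℝ} (h : Jet y z a b) :
    Jet (fun η => wd (sc η l) (y η)) z (a + A z l) (b + a * A' z l + B z l) := by
  induction l generalizing y a b with
  | nil =>
    simp only [A, A', B, mul_zero, add_zero]
    exact h
  | cons p l ih =>
    have h1 := h.letter hz p.1 p.2 (hl p (List.mem_cons_self))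
    have h2 := ih (fun q hq => hl q (List.mem_cons_of_mem _ hq)) h1
    have e1 : a + A z (p :: l) = a + p.2 * V p.1 z + A z l := by
      rw [A]
      ring
    have e2 : b + a * A' z (p :: l) + B z (p :: l) = b + p.2 * V' p.1 z * a +
        p.2 ^ 2 * V p.1 z * V' p.1 z / 2 + (a + p.2 * V p.1 z) * A' z l + B z l := by
      rw [A', B]
      ring
    rw [e1, e2]
    exact h2

theorem jet_const (z : ℝ) : Jet (fun _ => z) z 0 0 := by
  have h : (fun _ : ℝ => (0 : ℝ)) =o[𝓝 0] fun η : ℝ => η ^ 2 := isLittleO_zero _ _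
  refine h.congr_left fun η => ?_
  ring

theorem eventually_ok (l : List (ℝ × ℝ)) (hl : ∀ p ∈ l, 0 < p.1) {z : ℝ} (hz : 0 < z)
    {y : ℝ → ℝ} {a b : ℝ} (h : Jet y z a b) : ∀ᶠ η in 𝓝 0, Ok (sc η l) (y η) := by
  induction l generalizing y a b with
  | nil => exact h.tendsto.eventually (lt_mem_nhds hz)
  | cons p l ih =>
    have h1 := h.letter hz p.1 p.2 (hl p (List.mem_cons_self))
    have h2 := ih (fun q hq => hl q (List.mem_cons_of_mem _ hq)) h1
    have h3 := h.tendsto.eventually (lt_mem_nhds hz)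
    have hw : (0 : ℝ) < z ^ p.1 := Real.rpow_pos_of_pos hz _
    have h4 := ((h.comp (tay_rpow p.1 hz)).add_mul p.2).tendsto.eventually (lt_mem_nhds hw)
    filter_upwards [h2, h3, h4] with η h5 h6 h7
    exact ⟨h6, h7, h5⟩

theorem word_jet (l : List (ℝ × ℝ)) (hl : ∀ p ∈ l, 0 < p.1) {z : ℝ} (hz : 0 < z)
    (hA : A z l = 0) : Jet (fun η => wd (sc η l) z) z 0 (B z l) := by
  have h := (jet_const z).word l hl hz
  rw [hA] at h
  have e : (0 : ℝ) + 0 * A' z l + B z l = B z l := by ring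
  rw [e, add_zero] at h
  exact h

theorem word_sign (l : List (ℝ × ℝ)) (hl : ∀ p ∈ l, 0 < p.1) {z : ℝ} (hz : 0 < z)
    (hA : A z l = 0) (hB : B z l ≠ 0) :
    ∀ᶠ η in 𝓝 0, η ≠ 0 → 0 < (wd (sc η l) z - z) * B z l := by
  have h := word_jet l hl hz hA
  rw [Jet, isLittleO_iff] at h
  have h1 := h (c := |B z l| / 2) (by positivity)
  filter_upwards [h1] with η hη hη0
  rw [Real.norm_eq_abs, Real.norm_eq_abs, abs_of_nonneg (sq_nonneg η)] at hη
  have h2 : 0 < η ^ 2 := by positivity
  have h3 := abs_le.1 hη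
  have e : wd (sc η l) z - z = (wd (sc η l) z - (z + 0 * η + B z l * η ^ 2)) + B z l * η ^ 2 := by
    ring
  rcases lt_or_gt_of_ne hB with hneg | hpos
  · rw [abs_of_neg hneg] at h3
    have h4 : B z l * η ^ 2 < 0 := mul_neg_of_neg_of_pos hneg h2
    refine mul_pos_of_neg_of_neg ?_ hneg
    rw [e]
    have := h3.2
    linarith
  · rw [abs_of_pos hpos] at h3
    have h4 : 0 < B z l * η ^ 2 := mul_pos hpos h2
    refine mul_pos ?_ hpos
    rw [e]
    have := h3.1
    linarith

/-- the inverse word -/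
def inv (l : List (ℝ × ℝ)) : List (ℝ × ℝ) := (l.map fun p => (p.1, -p.2)).reverse

/-- the commutator word -/
def comm (u v : List (ℝ × ℝ)) : List (ℝ × ℝ) := u ++ v ++ inv u ++ inv v

theorem inv_cons (p : ℝ × ℝ) (l : List (ℝ × ℝ)) : inv (p :: l) = inv l ++ [(p.1, -p.2)] := by
  simp [inv]

theorem length_inv (l : List (ℝ × ℝ)) : (inv l).length = l.length := by
  simp [inv]

theorem length_comm (u v : List (ℝ × ℝ)) : (comm u v).length = 2 * (u.length + v.length) := by
  simp only [comm, List.length_append, length_inv]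
  ring

theorem A_append (z : ℝ) (l l' : List (ℝ × ℝ)) : A z (l ++ l') = A z l + A z l' := by
  induction l with
  | nil => simp [A]
  | cons p l ih =>
    rw [List.cons_append, A, A, ih]
    ring

theorem A'_append (z : ℝ) (l l' : List (ℝ × ℝ)) : A' z (l ++ l') = A' z l + A' z l' := by
  induction l with
  | nil => simp [A']
  | cons p l ih =>
    rw [List.cons_append, A', A', ih]
    ring

theorem B_append (z : ℝ) (l l' : List (ℝ × ℝ)) :
    B z (l ++ l') = B z l + A z l * A' z l' + B z l' := by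
  induction l with
  | nil => simp [A, B]
  | cons p l ih =>
    rw [List.cons_append, B, B, A, ih, A'_append]
    ring

theorem A_inv (z : ℝ) (l : List (ℝ × ℝ)) : A z (inv l) = -A z l := by
  induction l with
  | nil => simp [A, inv]
  | cons p l ih =>
    rw [inv_cons, A_append, ih, A, A, A]
    ring

theorem A'_inv (z : ℝ) (l : List (ℝ × ℝ)) : A' z (inv l) = -A' z l := by
  induction l with
  | nil => simp [A', inv]
  | cons p l ih =>
    rw [inv_cons, A'_append, ih, A', A', A']
    ring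

theorem B_inv (z : ℝ) (l : List (ℝ × ℝ)) : B z (inv l) = -B z l + A z l * A' z l := by
  induction l with
  | nil => simp [A, B, inv]
  | cons p l ih =>
    rw [inv_cons, B_append, ih, A_inv]
    simp only [A, A', B]
    ring

theorem A_comm (z : ℝ) (u v : List (ℝ × ℝ)) : A z (comm u v) = 0 := by
  rw [comm, A_append, A_append, A_append, A_inv, A_inv]
  ring

theorem A'_comm (z : ℝ) (u v : List (ℝ × ℝ)) : A' z (comm u v) = 0 := by
  rw [comm, A'_append, A'_append, A'_append, A'_inv, A'_inv]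
  ring

theorem B_comm (z : ℝ) (u v : List (ℝ × ℝ)) :
    B z (comm u v) = A z u * A' z v - A z v * A' z u := by
  simp only [comm, B_append, A_append, B_inv, A'_inv, A_inv]
  ring

/-- product of commutators -/
def comms (L : List (List (ℝ × ℝ) × List (ℝ × ℝ))) : List (ℝ × ℝ) :=
  (L.map fun q => comm q.1 q.2).flatten

theorem comms_cons (q : List (ℝ × ℝ) × List (ℝ × ℝ)) (L : List (List (ℝ × ℝ) × List (ℝ × ℝ))) :
    comms (q :: L) = comm q.1 q.2 ++ comms L := by
  simp [comms]

theorem A_comms (z : ℝ) (L : List (List (ℝ × ℝ) × List (ℝ × ℝ))) : A z (comms L) = 0 := by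
  induction L with
  | nil => simp [comms, A]
  | cons q L ih => rw [comms_cons, A_append, A_comm, ih, add_zero]

theorem B_comms (z : ℝ) (L : List (List (ℝ × ℝ) × List (ℝ × ℝ))) :
    B z (comms L) = (L.map fun q => A z q.1 * A' z q.2 - A z q.2 * A' z q.1).sum := by
  induction L with
  | nil => simp [comms, B]
  | cons q L ih =>
    rw [comms_cons, B_append, A_comm, zero_mul, add_zero, ih, B_comm, List.map_cons, List.sum_cons]

theorem mem_comm {u v : List (ℝ × ℝ)} {P : ℝ → Prop} (hu : ∀ p ∈ u, P p.1) (hv : ∀ p ∈ v, P p.1) :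
    ∀ p ∈ comm u v, P p.1 := by
  intro p hp
  simp only [comm, inv, List.mem_append, List.mem_reverse, List.mem_map] at hp
  rcases hp with ((h | h) | ⟨q, hq, rfl⟩) | ⟨q, hq, rfl⟩
  · exact hu p h
  · exact hv p h
  · exact hu q hq
  · exact hv q hq

theorem mem_comms {L : List (List (ℝ × ℝ) × List (ℝ × ℝ))} {P : ℝ → Prop}
    (h : ∀ q ∈ L, (∀ p ∈ q.1, P p.1) ∧ (∀ p ∈ q.2, P p.1)) : ∀ p ∈ comms L, P p.1 := by
  intro p hp
  rw [comms, List.mem_flatten] at hp
  obtain ⟨w, hw, hpw⟩ := hp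
  obtain ⟨q, hq, rfl⟩ := List.mem_map.1 hw
  exact mem_comm (h q hq).1 (h q hq).2 p hpw

theorem length_comms (L : List (List (ℝ × ℝ) × List (ℝ × ℝ))) :
    (comms L).length = (L.map fun q => 2 * (q.1.length + q.2.length)).sum := by
  induction L with
  | nil => simp [comms]
  | cons q L ih =>
    rw [comms_cons, List.length_append, length_comm, ih, List.map_cons, List.sum_cons]

/-- `A` of the list of the letters `(μ i, a i)` -/
theorem A_ofFn (z : ℝ) {n : ℕ} (μ a : Fin n → ℝ) :
    A z (List.ofFn fun i => (μ i, a i)) = ∑ i, a i * V (μ i) z := by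
  induction n with
  | zero => simp [A]
  | succ n ih =>
    rw [List.ofFn_succ, A, ih, Fin.sum_univ_succ]

theorem A'_ofFn (z : ℝ) {n : ℕ} (μ a : Fin n → ℝ) :
    A' z (List.ofFn fun i => (μ i, a i)) = ∑ i, a i * V' (μ i) z := by
  induction n with
  | zero => simp [A']
  | succ n ih =>
    rw [List.ofFn_succ, A', ih, Fin.sum_univ_succ]

/-- the bracket of two letters -/
theorem bracket {μ ν z : ℝ} (hz : 0 < z) (hμ : μ ≠ 0) (hν : ν ≠ 0) :
    V μ z * V' ν z - V ν z * V' μ z = (μ - ν) / (μ * ν) * z ^ (1 - μ - ν) := by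
  have e1 : z ^ (1 - μ) * z ^ (-ν) = z ^ (1 - μ - ν) := by
    rw [← Real.rpow_add hz]
    congr 1
  have e2 : z ^ (1 - ν) * z ^ (-μ) = z ^ (1 - μ - ν) := by
    rw [← Real.rpow_add hz]
    congr 1
    ring
  rw [V, V', V, V']
  have e3 : z ^ (1 - μ) / μ * ((1 - ν) * z ^ (-ν) / ν) - z ^ (1 - ν) / ν * ((1 - μ) * z ^ (-μ) / μ) =
      ((1 - ν) * (z ^ (1 - μ) * z ^ (-ν)) - (1 - μ) * (z ^ (1 - ν) * z ^ (-μ))) / (μ * ν) := by
    field_simp
  rw [e3, e1, e2]
  field_simp
  ring

end Pool.Agent.MP95e7W
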